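import Mathlib

/-!
# Campaign TK (MP_291c47_an): trilinear Kakeya estimate in R^4 for tubes in few planes. Definitions.

Model space: `X = (Fin 3 → ℝ) × ℝ` (sup norm, product Lebesgue measure).
`T3 j b v w` is the infinite tube `{x | ∀ k ≠ j, |x k - b k - v k * x j| ≤ w}` of `ℝ³` around the line
through `b` (entries `b k`, `k ≠ j`) with slopes `v k`, almost parallel to the axis `j`.
`cnt j b v w x` is the number of tubes of the family containing `x`.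
-/

open scoped ENNReal NNReal BigOperators
open MeasureTheory

namespace Pool.Agent.Lib.MP_291c47_an.TK

/-- `ℝ⁴` -/
abbrev E4 : Type := EuclideanSpace ℝ (Fin 4)

/-- the model space `ℝ³ × ℝ` -/
abbrev X : Type := (Fin 3 → ℝ) × ℝ

/-- A `δ`-tube of `ℝ⁴`: a rectangular box with one side of length `1` and three sides of length `δ`, given by
its centre and an orthonormal frame; `frame 0` is the direction of the long side. -/
structure Tube (δ : ℝ) where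
  center : E4
  frame : OrthonormalBasis (Fin 4) ℝ E4

namespace Tube

variable {δ : ℝ}

/-- the direction of the long side -/
noncomputable def dir (T : Tube δ) : E4 := T.frame 0

/-- the box as a set of points -/
def carrier (T : Tube δ) : Set E4 :=
  {x | |inner ℝ (T.frame 0) (x - T.center)| ≤ 1 / 2 ∧
    ∀ i : Fin 4, i ≠ 0 → |inner ℝ (T.frame i) (x - T.center)| ≤ δ / 2}

end Tube

/-- `F = ∑_T χ_T` -/
noncomputable def F {δ : ℝ} {ι : Type} [Fintype ι] (T : ι → Tube δ) (x : E4) : ℝ :=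
  ∑ i, (T i).carrier.indicator (fun _ => (1 : ℝ)) x

/-- The directions of distinct tubes of the family are `δ`-separated (as unsigned directions). -/
def Separated {δ : ℝ} {ι : Type} (T : ι → Tube δ) : Prop :=
  ∀ i i', i ≠ i' → δ ≤ ‖(T i).dir - (T i').dir‖ ∧ δ ≤ ‖(T i).dir + (T i').dir‖

/-- determinant of four vectors of `ℝ⁴` -/
noncomputable def det4 (b : Fin 4 → E4) : ℝ := (Matrix.of fun k i : Fin 4 => b k i).det

/-- `|det (e(T_1), e(T_2), e(T_3), ω)| ≥ c` for all choices `T_j ∈ 𝕋_j`. -/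
def Transversal {δ : ℝ} {ι : Fin 3 → Type} (c : ℝ) (ω : E4) (T : ∀ j, ι j → Tube δ) : Prop :=
  ∀ (i₀ : ι 0) (i₁ : ι 1) (i₂ : ι 2), c ≤ |det4 ![(T 0 i₀).dir, (T 1 i₁).dir, (T 2 i₂).dir, ω]|

/-- The tubes of the family are contained in the `A δ`-neighbourhoods of `m` two-planes
`{a + s u + t ω}` parallel to the direction `ω` (each tube in one of these neighbourhoods). -/
def InPlanes {δ : ℝ} {ι : Type} (A : ℝ) (ω : E4) (m : ℕ) (T : ι → Tube δ) : Prop :=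
  ∃ a u : Fin m → E4, ∀ i, ∃ k, ∀ x ∈ (T i).carrier, ∃ s t : ℝ, ‖x - (a k + s • u k + t • ω)‖ ≤ A * δ

/-- The volume of the model space is an additive Haar measure (use `haveI := haarX`). -/
theorem haarX : (volume : Measure X).IsAddHaarMeasure := by
  rw [Measure.volume_eq_prod]; infer_instance

/-! ### Model objects -/

/-- model tube of `ℝ³` -/
def T3 (j : Fin 3) (b v : Fin 3 → ℝ) (w : ℝ) : Set (Fin 3 → ℝ) :=
  {x | ∀ k, k ≠ j → |x k - b k - v k * x j| ≤ w}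

/-- number of the tubes `T3 j (b i) (v i) w` containing `x` -/
noncomputable def cnt {ι : Type} [Fintype ι] (j : Fin 3) (b v : ι → Fin 3 → ℝ) (w : ℝ)
    (x : Fin 3 → ℝ) : ℝ≥0∞ :=
  ∑ i, (T3 j (b i) (v i) w).indicator (fun _ => (1 : ℝ≥0∞)) x

/-- number of the planar strips `|y - h i - u i * s| ≤ w` containing `(s, y)` -/
noncomputable def gam {ι : Type} [Fintype ι] (h u : ι → ℝ) (w : ℝ) (s y : ℝ) : ℝ≥0∞ :=
  ∑ i, {y' : ℝ | |y' - h i - u i * s| ≤ w}.indicator (fun _ => (1 : ℝ≥0∞)) y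

/-- the same, only strips with index in the finite set `g` -/
noncomputable def gamS {ι : Type} (g : Finset ι) (h u : ι → ℝ) (w : ℝ) (s y : ℝ) : ℝ≥0∞ :=
  ∑ i ∈ g, {y' : ℝ | |y' - h i - u i * s| ≤ w}.indicator (fun _ => (1 : ℝ≥0∞)) y

/-- model tube of `ℝ³ × ℝ` -/
def T4 (j : Fin 3) (b v : Fin 3 → ℝ) (h u : ℝ) (w : ℝ) : Set X :=
  {p | p.1 ∈ T3 j b v w ∧ |p.2 - h - u * p.1 j| ≤ w}

/-- number of the model tubes `T4 j (b i) (v i) (h i) (u i) w` containing `p` -/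
noncomputable def cnt4 {ι : Type} [Fintype ι] (j : Fin 3) (b v : ι → Fin 3 → ℝ) (h u : ι → ℝ) (w : ℝ)
    (p : X) : ℝ≥0∞ :=
  ∑ i, (T4 j (b i) (v i) (h i) (u i) w).indicator (fun _ => (1 : ℝ≥0∞)) p

/-- the linear map `(x, t) ↦ x 0 e 0 + x 1 e 1 + x 2 e 2 + t ω` -/
noncomputable def Phi (e : Fin 3 → E4) (ω : E4) : X →ₗ[ℝ] E4 where
  toFun p := (∑ k, p.1 k • e k) + p.2 • ω
  map_add' p q := by
    simp only [Prod.fst_add, Prod.snd_add, Pi.add_apply, add_smul, Finset.sum_add_distrib]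
    abel
  map_smul' a p := by
    simp only [Prod.smul_fst, Prod.smul_snd, Pi.smul_apply, smul_eq_mul, mul_smul, RingHom.id_apply,
      smul_add, Finset.smul_sum]

/-- `Ψ` is the inverse of `Phi e ω` and has norm at most `Λ` (Euclidean norm to sup norm); `e k`, `ω` are unit
vectors -/
structure Coord (e : Fin 3 → E4) (ω : E4) (Λ : ℝ) (Ψ : E4 →ₗ[ℝ] X) : Prop where
  one_e : ∀ k, ‖e k‖ = 1
  one_ω : ‖ω‖ = 1
  left : ∀ x, Phi e ω (Ψ x) = x
  right : ∀ p, Ψ (Phi e ω p) = p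
  bound : ∀ x, ‖Ψ x‖ ≤ Λ * ‖x‖

/-- `F` with values in `ℝ≥0∞` -/
noncomputable def cntE {δ : ℝ} {ι : Type} [Fintype ι] (T : ι → Tube δ) (x : E4) : ℝ≥0∞ :=
  ∑ i, (T i).carrier.indicator (fun _ => (1 : ℝ≥0∞)) x

/-- slopes of the direction of the tube with respect to the coordinate `j`: `v k = (Ψ e)_k / (Ψ e)_j` -/
noncomputable def sl {δ : ℝ} (Ψ : E4 →ₗ[ℝ] X) (j : Fin 3) (T : Tube δ) : Fin 3 → ℝ :=
  fun k => (Ψ T.dir).1 k / (Ψ T.dir).1 j

/-- slope of the last coordinate: `u = (Ψ e)_4 / (Ψ e)_j` -/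
noncomputable def su {δ : ℝ} (Ψ : E4 →ₗ[ℝ] X) (j : Fin 3) (T : Tube δ) : ℝ :=
  (Ψ T.dir).2 / (Ψ T.dir).1 j

/-- positions, coordinates relative to `z`: `b k = (Ψ c - z)_k - v k (Ψ c - z)_j` -/
noncomputable def pb {δ : ℝ} (Ψ : E4 →ₗ[ℝ] X) (j : Fin 3) (z : X) (T : Tube δ) : Fin 3 → ℝ :=
  fun k => ((Ψ T.center).1 k - z.1 k) - sl Ψ j T k * ((Ψ T.center).1 j - z.1 j)

/-- position, last coordinate -/
noncomputable def ph {δ : ℝ} (Ψ : E4 →ₗ[ℝ] X) (j : Fin 3) (z : X) (T : Tube δ) : ℝ :=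
  ((Ψ T.center).2 - z.2) - su Ψ j T * ((Ψ T.center).1 j - z.1 j)

/-- slopes of the projected plane `{a + s u + t ω}` -/
noncomputable def vP (Ψ : E4 →ₗ[ℝ] X) (j : Fin 3) (u : E4) : Fin 3 → ℝ :=
  fun k => (Ψ u).1 k / (Ψ u).1 j

/-- position of the projected plane relative to `z` -/
noncomputable def bP (Ψ : E4 →ₗ[ℝ] X) (j : Fin 3) (z : X) (a u : E4) : Fin 3 → ℝ :=
  fun k => ((Ψ a).1 k - z.1 k) - vP Ψ j u k * ((Ψ a).1 j - z.1 j)

/-- Density of the slopes `u i`, `i ∈ g`, at scale `w`. -/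
def Dens {ι : Type} (g : Finset ι) (u : ι → ℝ) (w B : ℝ) : Prop :=
  ∀ i ∈ g, ∀ t, 0 ≤ t → ∀ g' ⊆ g, (∀ i' ∈ g', |u i' - u i| ≤ t) → (g'.card : ℝ) ≤ B * (1 + t / w)

end Pool.Agent.Lib.MP_291c47_an.TK
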