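import Pool.Agent.Lib.MP_291c47_an.Mg.G002

/-!
# TASK TK PK: packing
-/

open scoped ENNReal NNReal BigOperators
open MeasureTheory Metric

namespace Pool.Agent.Lib.MP_291c47_an.TK

/-- At most `80 δ^(-3)` directions.
PROOF. The open balls `ball (dir i) (δ/2)` are pairwise disjoint and contained in `ball 0 (1 + δ/2) \ ball 0 (1 - δ/2)`-ish: every point `x` of them has `1 - δ/2 < ‖x‖ < 1 + δ/2`.
Volumes scale like `r^4` (`Measure.addHaar_ball`, `finrank = 4`), `V = volume (ball 0 1)`: `card · (δ/2)^4 V + (1 - δ/2)^4 V ≤ (1 + δ/2)^4 V` (the ball of radius `1 - δ/2` around `0` is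
disjoint from the small balls), so `card (δ/2)^4 ≤ (1+t)^4 - (1-t)^4 = 8t + 8t^3`, `t = δ/2`, `≤ 5δ`. -/
theorem packing {δ : ℝ} (hδ : 0 < δ) (hδ1 : δ < 1) {ι : Type} [Fintype ι] (T : ι → Tube δ) (hsep : Separated T) :
    (Fintype.card ι : ℝ) * δ ^ 3 ≤ 80 := by
  classical
  have hdir : ∀ i, ‖(T i).dir‖ = 1 := fun i => (T i).frame.orthonormal.1 0
  set t : ℝ := δ / 2 with ht
  have ht0 : 0 < t := by positivity
  have ht1 : t < 1 := by linarith
  -- the balls
  have hdisj : Pairwise (Function.onFun Disjoint fun i => ball (T i).dir t) := by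
    intro i i' hii
    refine ball_disjoint_ball ?_
    rw [dist_eq_norm]
    have := (hsep i i' hii).1
    linarith
  have hdisj0 : Disjoint (⋃ i, ball (T i).dir t) (ball (0 : E4) (1 - t)) := by
    rw [Set.disjoint_iUnion_left]
    intro i
    refine ball_disjoint_ball ?_
    rw [dist_zero_right, hdir i]
    linarith
  have hsub : (⋃ i, ball (T i).dir t) ∪ ball (0 : E4) (1 - t) ⊆ ball (0 : E4) (1 + t) := by
    refine Set.union_subset (Set.iUnion_subset fun i => ?_) (ball_subset_ball (by linarith))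
    refine ball_subset_ball' ?_
    rw [dist_zero_right, hdir i]
    linarith
  have hvol := measure_mono (μ := (volume : Measure E4)) hsub
  rw [measure_union hdisj0 isOpen_ball.measurableSet,
    measure_iUnion hdisj (fun i => isOpen_ball.measurableSet), tsum_fintype] at hvol
  have hfr : Module.finrank ℝ E4 = 4 := by simp [E4]
  have hb : ∀ (x : E4) (r : ℝ), 0 ≤ r → volume (ball x r) = ENNReal.ofReal (r ^ 4) * volume (ball (0 : E4) 1) := by
    intro x r hr
    rw [Measure.addHaar_ball _ _ hr, hfr]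
  rw [hb 0 (1 - t) (by linarith), hb 0 (1 + t) (by linarith)] at hvol
  simp_rw [hb _ t ht0.le] at hvol
  rw [Finset.sum_const, Finset.card_univ, nsmul_eq_mul, ← mul_assoc, ← add_mul] at hvol
  have hV0 : volume (ball (0 : E4) 1) ≠ 0 := (measure_ball_pos _ _ one_pos).ne'
  have hV1 : volume (ball (0 : E4) 1) ≠ ⊤ := measure_ball_lt_top.ne
  have h1 := (ENNReal.mul_le_mul_iff_left hV0 hV1).1 hvol
  have hc : ((Fintype.card ι : ℕ) : ℝ≥0∞) = ENNReal.ofReal (Fintype.card ι : ℝ) := by
    rw [ENNReal.ofReal_natCast]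
  have e1 : 0 ≤ (1 - t) ^ 4 := by positivity
  rw [hc, ← ENNReal.ofReal_mul (by positivity), ← ENNReal.ofReal_add (by positivity) e1,
    ENNReal.ofReal_le_ofReal_iff (by positivity)] at h1
  have h2 : (Fintype.card ι : ℝ) * t ^ 4 ≤ 8 * t + 8 * t ^ 3 := by nlinarith [h1]
  have h3 : (Fintype.card ι : ℝ) * t ^ 3 ≤ 8 + 8 * t ^ 2 := by
    by_contra hcon
    rw [not_le] at hcon
    have := mul_lt_mul_of_pos_right hcon ht0
    nlinarith [this, h2]
  have h4 : t ^ 2 ≤ 1 / 4 := by
    have : t ≤ 1 / 2 := by linarith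
    nlinarith
  have h5 : δ ^ 3 = 8 * t ^ 3 := by rw [ht]; ring
  rw [h5]
  nlinarith

end Pool.Agent.Lib.MP_291c47_an.TK
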