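import Pool.Agent.Lib.MP_291c47_an.Mg.G004
import Pool.Agent.Lib.MP_291c47_an.Mg.G001
import Pool.Agent.Lib.MP_291c47_an.Mg.G002
import Pool.Agent.Lib.MP_291c47_an.TK.PK

/-!
# TASK TK MN: the main theorem
-/

open scoped ENNReal NNReal BigOperators
open MeasureTheory Metric

namespace Pool.Agent.Lib.MP_291c47_an.TK

/-- `β(p, q) = 4/q - 3/p'` -/
noncomputable def beta (p q : ℝ≥0∞) : ℝ := 4 * (1 / q).toReal - 3 * (1 - (1 / p).toReal)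

/-- The right-hand side of the estimate. -/
noncomputable def RHS (C δ ε : ℝ) (p q : ℝ≥0∞) (N M : ℝ) : ℝ :=
  C * δ ^ (3 * (beta p q - ε)) * N ^ (1 / p).toReal * (max 1 (δ ^ 6 * M)) ^ (max 0 (3 * (1 / q).toReal - 2))

/-- Consequences of `packing`. PROOF. Product of the three inequalities `card ≤ 80 δ^(-3)`. -/
theorem prod_card_le {δ : ℝ} (hδ : 0 < δ) (hδ1 : δ < 1) {ι : Fin 3 → Type} [∀ j, Fintype (ι j)]
    (T : ∀ j, ι j → Tube δ) (hsep : ∀ j, Separated (T j)) :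
    ∏ j, (Fintype.card (ι j) : ℝ) ≤ (80 : ℝ) ^ 3 * δ ^ (-9 : ℝ) := by
  have h3 : 0 < δ ^ 3 := by positivity
  have h1 : ∀ j, (Fintype.card (ι j) : ℝ) ≤ 80 / δ ^ 3 := by
    intro j
    rw [le_div_iff₀ h3]
    exact packing hδ hδ1 (T j) (hsep j)
  have h2 : ∏ j, (Fintype.card (ι j) : ℝ) ≤ ∏ _j : Fin 3, (80 / δ ^ 3) :=
    Finset.prod_le_prod (fun j _ => Nat.cast_nonneg _) (fun j _ => h1 j)
  refine h2.trans (le_of_eq ?_)
  rw [Finset.prod_const, Finset.card_univ, Fintype.card_fin, div_pow, div_eq_mul_inv, ← pow_mul]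
  congr 1
  rw [Real.rpow_neg hδ.le]
  congr 1
  rw [show (9 : ℝ) = ((9 : ℕ) : ℝ) by norm_num, Real.rpow_natCast]

private theorem MN_prod_pow (n : Fin 3 → ℕ) {x : ℝ} (hx : 0 ≤ x) :
    ∏ j, ((n j : ℕ) : ℝ≥0∞) ^ x = ENNReal.ofReal ((∏ j, (n j : ℝ)) ^ x) := by
  rw [← Real.finsetProd_rpow _ _ (fun j _ => Nat.cast_nonneg _),
    ENNReal.ofReal_prod_of_nonneg (fun j _ => Real.rpow_nonneg (Nat.cast_nonneg _) _)]
  refine Finset.prod_congr rfl fun j _ => ?_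
  rw [← ENNReal.ofReal_rpow_of_nonneg (Nat.cast_nonneg _) hx, ENNReal.ofReal_natCast]

private theorem MN_half {δ C s : ℝ} (hδ : 0 < δ) (hC : 0 ≤ C) (n : Fin 3 → ℕ) :
    ENNReal.ofReal C * ENNReal.ofReal δ ^ s * ∏ j, ((n j : ℕ) : ℝ≥0∞) ^ (1 / 2 : ℝ)
      = ENNReal.ofReal (C * δ ^ s * (∏ j, (n j : ℝ)) ^ (1 / 2 : ℝ)) := by
  rw [MN_prod_pow n (by norm_num), ENNReal.ofReal_rpow_of_pos hδ, ← ENNReal.ofReal_mul hC,
    ← ENNReal.ofReal_mul (by positivity)]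

private theorem MN_third {δ C s : ℝ} (hδ : 0 < δ) (hC : 0 ≤ C) (n m : Fin 3 → ℕ) :
    ENNReal.ofReal C * ENNReal.ofReal δ ^ s *
        ∏ j, ((n j : ℕ) : ℝ≥0∞) ^ (1 / 3 : ℝ) * ((m j : ℕ) : ℝ≥0∞) ^ (1 / 9 : ℝ)
      = ENNReal.ofReal (C * δ ^ s * ((∏ j, (n j : ℝ)) ^ (1 / 3 : ℝ) * (∏ j, (m j : ℝ)) ^ (1 / 9 : ℝ))) := by
  rw [Finset.prod_mul_distrib, MN_prod_pow n (by norm_num), MN_prod_pow m (by norm_num),
    ENNReal.ofReal_rpow_of_pos hδ, ← ENNReal.ofReal_mul hC,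
    ← ENNReal.ofReal_mul (Real.rpow_nonneg (Finset.prod_nonneg fun j _ => Nat.cast_nonneg _) _),
    ← ENNReal.ofReal_mul (by positivity)]

private theorem MN_one_le {n : Fin 3 → ℕ} (h : ∀ j, 1 ≤ n j) : (1 : ℝ) ≤ ∏ j, (n j : ℝ) := by
  have h1 : ∏ _j : Fin 3, (1 : ℝ) ≤ ∏ j, (n j : ℝ) :=
    Finset.prod_le_prod (fun j _ => zero_le_one) (fun j _ => by exact_mod_cast h j)
  rwa [Finset.prod_const_one] at h1

private theorem MN_m {δ A : ℝ} {ω : E4} {ι : Type} [Nonempty ι] {m : ℕ} {T : ι → Tube δ} (h : InPlanes A ω m T) :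
    1 ≤ m := by
  obtain ⟨a, u, h⟩ := h
  obtain ⟨i⟩ := (inferInstance : Nonempty ι)
  obtain ⟨k, _⟩ := h i
  exact Nat.one_le_iff_ne_zero.mpr (fun h0 => by rw [h0] at k; exact Fin.elim0 k)

private theorem MN_a {p : ℝ≥0∞} (hp : 1 ≤ p) : 0 ≤ (1 / p).toReal ∧ (1 / p).toReal ≤ 1 := by
  refine ⟨ENNReal.toReal_nonneg, ?_⟩
  have h1 : 1 / p ≤ 1 := by
    rw [one_div]
    exact ENNReal.inv_le_one.mpr hp
  have h2 := ENNReal.toReal_mono ENNReal.one_ne_top h1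
  simpa using h2

private theorem MN_q {q : ℝ≥0∞} (hq : 4 / 3 ≤ q) (hqt : q ≠ ⊤) : 4 / 9 ≤ q.toReal / 3 := by
  have h1 := ENNReal.toReal_mono hqt hq
  have h2 : (4 / 3 : ℝ≥0∞).toReal = 4 / 3 := by
    rw [ENNReal.toReal_div]
    norm_num
  rw [h2] at h1
  linarith

private theorem MN_pq {p q : ℝ≥0∞} (hp : 1 ≤ p) (hq : 4 / 3 ≤ q) (hqt : q ≠ ⊤) (hpq : 1 / p + 3 / q ≤ 3) :
    (1 / p).toReal ≤ 3 - 1 / (q.toReal / 3) := by
  have hq0 : q ≠ 0 := by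
    rintro rfl
    have h1 := MN_q hq ENNReal.zero_ne_top
    norm_num at h1
  have hp0 : p ≠ 0 := by
    rintro rfl
    simp at hp
  have h1 : (1 / p + 3 / q).toReal ≤ (3 : ℝ≥0∞).toReal := ENNReal.toReal_mono (by norm_num) hpq
  have e1 : 1 / p ≠ ⊤ := by
    rw [one_div]
    exact ENNReal.inv_ne_top.mpr hp0
  have e2 : 3 / q ≠ ⊤ := ENNReal.div_ne_top (by norm_num) hq0
  rw [ENNReal.toReal_add e1 e2, ENNReal.toReal_div 3 q] at h1
  have h3 : (3 : ℝ≥0∞).toReal = 3 := by norm_num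
  rw [h3] at h1
  have h4 : 1 / (q.toReal / 3) = 3 / q.toReal := by rw [one_div_div]
  rw [h4]
  linarith

private theorem MN_iq (q : ℝ≥0∞) : (1 / q).toReal = 1 / (q.toReal / 3) / 3 := by
  rw [ENNReal.toReal_div, ENNReal.toReal_one, one_div_div]
  ring

/-- Finite `q`, small `δ`, nonempty families, `ε ≤ 1`.
PROOF. Take `r = q.toReal/3`, `a = (1/p).toReal`, `P = 80^3`, `C₂ = max 1 (the constants of globC, globD)`. `eLpNorm_eq`. If `r < 1/2`: `interp`, `globC`, `globD`, turned into `ENNReal.ofReal` of the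
left side of `alg_low` (`N = ∏ card ≥ 1`, `M = ∏ m j ≥ 1` because `InPlanes` of a nonempty family needs `m j ≥ 1`), `a ≤ 3 - 1/r` is the hypothesis `1/p + 3/q ≤ 3`; then `alg_low`:
`4/r - 9(1-a) - 3ε = 3(beta - ε)`, `1/r - 2 = 3/q - 2 = max 0 ..`. If `r ≥ 1/2`: `high`, `globC`, `alg_high`, `max 0 (3/q - 2) = 0`. -/
theorem main_small (c A ε : ℝ) (p q : ℝ≥0∞) (hc : 0 < c) (hA : 1 ≤ A) (hε : 0 < ε) (hε1 : ε ≤ 1) (hp : 1 ≤ p)
    (hq : 4 / 3 ≤ q) (hqt : q ≠ ⊤) (hpq : 1 / p + 3 / q ≤ 3) :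
    ∃ δ₀ : ℝ, 0 < δ₀ ∧ ∃ C : ℝ, 0 < C ∧ ∀ (δ : ℝ), 0 < δ → δ ≤ δ₀ → δ < 1 → ∀ (ω : E4), ‖ω‖ = 1 →
      ∀ (ι : Fin 3 → Type) [∀ j, Fintype (ι j)] [∀ j, Nonempty (ι j)] (T : ∀ j, ι j → Tube δ) (m : Fin 3 → ℕ),
        (∀ j, Separated (T j)) → Transversal c ω T → (∀ j, InPlanes A ω (m j) (T j)) →
        eLpNorm (fun x => F (T 0) x * F (T 1) x * F (T 2) x) (q / 3) volume ≤
          ENNReal.ofReal (RHS C δ ε p q (∏ j, (Fintype.card (ι j) : ℝ)) (∏ j, (m j : ℝ))) := by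
  obtain ⟨ha0, ha1⟩ := MN_a hp
  have hr := MN_q hq hqt
  have hap := MN_pq hp hq hqt hpq
  have hiq := MN_iq q
  have hq0 : q ≠ 0 := by
    rintro rfl
    norm_num at hr
  set r : ℝ := q.toReal / 3 with hrdef
  set a : ℝ := (1 / p).toReal with hadef
  have hr0 : 0 < r := by linarith
  have hir : 0 ≤ 1 / r := by positivity
  obtain ⟨C₁, hC₁⟩ := globC ε c hε hε1 hc
  obtain ⟨δ₀, hδ₀, C₂, hC₂⟩ := globD ε c A hε hε1 hc hA
  set C : ℝ := max 1 (max (C₁ : ℝ) (C₂ : ℝ)) with hCdef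
  have hC1 : 1 ≤ C := le_max_left _ _
  have hC0 : 0 ≤ C := by linarith
  have hCC₁ : (C₁ : ℝ≥0∞) ≤ ENNReal.ofReal C := by
    rw [← ENNReal.ofReal_coe_nnreal]
    exact ENNReal.ofReal_le_ofReal (le_trans (le_max_left _ _) (le_max_right _ _))
  have hCC₂ : (C₂ : ℝ≥0∞) ≤ ENNReal.ofReal C := by
    rw [← ENNReal.ofReal_coe_nnreal]
    exact ENNReal.ofReal_le_ofReal (le_trans (le_max_right _ _) (le_max_right _ _))
  have hE : 3 * (beta p q - ε) = 4 / r - 9 * (1 - a) - 3 * ε := by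
    unfold beta
    rw [hiq]
    ring
  have hx : 3 * (1 / q).toReal - 2 = 1 / r - 2 := by
    rw [hiq]
    ring
  by_cases hr2 : r < 1 / 2
  · refine ⟨δ₀, hδ₀, C ^ (9 / 4 : ℝ) * ((80 : ℝ) ^ 3) ^ 3, by positivity, ?_⟩
    intro δ hδ hδle hδ1 ω hω ι _ _ T m hsep htr hpl
    have hN : (1 : ℝ) ≤ ∏ j, (Fintype.card (ι j) : ℝ) := MN_one_le fun j => Fintype.card_pos
    have hM : (1 : ℝ) ≤ ∏ j, (m j : ℝ) := MN_one_le fun j => MN_m (hpl j)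
    have hNP := prod_card_le hδ hδ1 T hsep
    have h1 := hC₁ δ hδ hδ1 ω hω ι T htr
    have h2 := hC₂ δ hδ hδle hδ1 ω hω ι T m htr hsep hpl
    have h1' := h1.trans (mul_le_mul_left (mul_le_mul_left hCC₁ _) _)
    have h2' := h2.trans (mul_le_mul_left (mul_le_mul_left hCC₂ _) _)
    rw [MN_half hδ hC0] at h1'
    rw [MN_third hδ hC0] at h2'
    rw [eLpNorm_eq T q hq0 hqt]
    have h3 := interp T hr hr2.le
    have e1 : 0 ≤ 18 * r - 8 := by linarith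
    have e2 : 0 ≤ 9 - 18 * r := by linarith
    have h4 := h3.trans (mul_le_mul' (ENNReal.rpow_le_rpow h1' e1) (ENNReal.rpow_le_rpow h2' e2))
    have h5 := ENNReal.rpow_le_rpow h4 hir
    refine h5.trans ?_
    have hN0 : 0 ≤ ∏ j, (Fintype.card (ι j) : ℝ) := by linarith
    have hM0 : 0 ≤ ∏ j, (m j : ℝ) := by linarith
    have q1 : 0 ≤ C * δ ^ (4 - ε) * (∏ j, (Fintype.card (ι j) : ℝ)) ^ (1 / 2 : ℝ) := by positivity
    have q2 : 0 ≤ C * δ ^ (11 / 3 - ε) * ((∏ j, (Fintype.card (ι j) : ℝ)) ^ (1 / 3 : ℝ) *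
      (∏ j, (m j : ℝ)) ^ (1 / 9 : ℝ)) := by positivity
    rw [ENNReal.ofReal_rpow_of_nonneg q1 e1, ENNReal.ofReal_rpow_of_nonneg q2 e2,
      ← ENNReal.ofReal_mul (by positivity), ENNReal.ofReal_rpow_of_nonneg (by positivity) hir]
    apply ENNReal.ofReal_le_ofReal
    have h6 := alg_low hδ hδ1 hN hM hr hr2 ha0 hap hε hC1 (P := (80 : ℝ) ^ 3) (by norm_num) hNP
    refine h6.trans (le_of_eq ?_)
    unfold RHS
    have h7 : 2 ≤ 1 / r := by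
      rw [le_div_iff₀ hr0]
      linarith
    have h8 : max (0 : ℝ) (1 / r - 2) = 1 / r - 2 := max_eq_right (by linarith)
    rw [hE, hx, h8]
  · push Not at hr2
    refine ⟨1, one_pos, C ^ 2 * (80 : ℝ) ^ 3, by positivity, ?_⟩
    intro δ hδ hδle hδ1 ω hω ι _ _ T m hsep htr hpl
    have hN : (1 : ℝ) ≤ ∏ j, (Fintype.card (ι j) : ℝ) := MN_one_le fun j => Fintype.card_pos
    have hNP := prod_card_le hδ hδ1 T hsep
    have h1 := hC₁ δ hδ hδ1 ω hω ι T htr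
    have h1' := h1.trans (mul_le_mul_left (mul_le_mul_left hCC₁ _) _)
    rw [MN_half hδ hC0] at h1'
    rw [eLpNorm_eq T q hq0 hqt]
    have h3 := high T hr2
    have e1 : 0 ≤ r - 1 / 2 := by linarith
    have h4 := h3.trans (mul_le_mul' le_rfl h1')
    have h5 := ENNReal.rpow_le_rpow h4 hir
    refine h5.trans ?_
    have hN0 : 0 ≤ ∏ j, (Fintype.card (ι j) : ℝ) := by linarith
    have e3 : (∏ j, (Fintype.card (ι j) : ℝ≥0∞)) = ENNReal.ofReal (∏ j, (Fintype.card (ι j) : ℝ)) := by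
      have h := MN_prod_pow (fun j => Fintype.card (ι j)) (x := 1) zero_le_one
      simpa using h
    rw [e3, ENNReal.ofReal_rpow_of_nonneg hN0 e1, ← ENNReal.ofReal_mul (by positivity),
      ENNReal.ofReal_rpow_of_nonneg (by positivity) hir]
    apply ENNReal.ofReal_le_ofReal
    have h6 := alg_high hδ hδ1 hN hr2 ha0 ha1 hε hC1 (P := (80 : ℝ) ^ 3) (by norm_num) hNP
    refine h6.trans (le_of_eq ?_)
    unfold RHS
    have h7 : 1 / r ≤ 2 := by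
      rw [div_le_iff₀ hr0]
      linarith
    have h8 : max (0 : ℝ) (1 / r - 2) = 0 := max_eq_left (by linarith)
    rw [hE, hx, h8, Real.rpow_zero, mul_one]

/-- `q = ∞`. PROOF. `⊤ / 3 = ⊤`, `eLpNorm_top_le`, `N = N^a N^(1-a) ≤ N^a (80^3 δ^(-9))^(1-a)`; `beta = -3(1-a)`, `δ^(-9(1-a)) ≤ δ^(3(beta-ε))`, the last factor is `≥ 1` (exponent `0`). -/
theorem main_top (c A ε : ℝ) (p : ℝ≥0∞) (hε : 0 < ε) (hp : 1 ≤ p) :
    ∃ C : ℝ, 0 < C ∧ ∀ (δ : ℝ), 0 < δ → δ < 1 → ∀ (ι : Fin 3 → Type) [∀ j, Fintype (ι j)]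
      [∀ j, Nonempty (ι j)] (T : ∀ j, ι j → Tube δ) (m : Fin 3 → ℕ), (∀ j, Separated (T j)) →
        eLpNorm (fun x => F (T 0) x * F (T 1) x * F (T 2) x) (⊤ / 3) volume ≤
          ENNReal.ofReal (RHS C δ ε p ⊤ (∏ j, (Fintype.card (ι j) : ℝ)) (∏ j, (m j : ℝ))) := by
  obtain ⟨ha0, ha1⟩ := MN_a hp
  refine ⟨(80 : ℝ) ^ 3, by norm_num, ?_⟩
  intro δ hδ hδ1 ι _ _ T m hsep
  have hN : (1 : ℝ) ≤ ∏ j, (Fintype.card (ι j) : ℝ) := MN_one_le fun j => Fintype.card_pos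
  have hNP := prod_card_le hδ hδ1 T hsep
  have e1 : (⊤ : ℝ≥0∞) / 3 = ⊤ := ENNReal.top_div_of_ne_top (by norm_num)
  rw [e1]
  refine (eLpNorm_top_le T).trans (ENNReal.ofReal_le_ofReal ?_)
  unfold RHS beta
  have e2 : (1 / (⊤ : ℝ≥0∞)).toReal = 0 := by simp
  rw [e2]
  have e3 : max (0 : ℝ) (3 * 0 - 2) = 0 := by norm_num
  rw [e3, Real.rpow_zero, mul_one]
  set a : ℝ := (1 / p).toReal with hadef
  set N : ℝ := ∏ j, (Fintype.card (ι j) : ℝ) with hNdef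
  have hN0 : 0 < N := by linarith
  have h1 : N = N ^ a * N ^ (1 - a) := by
    rw [← Real.rpow_add hN0]
    simp
  have h2 : N ^ (1 - a) ≤ ((80 : ℝ) ^ 3 * δ ^ (-9 : ℝ)) ^ (1 - a) :=
    Real.rpow_le_rpow hN0.le hNP (by linarith)
  have h3 : ((80 : ℝ) ^ 3 * δ ^ (-9 : ℝ)) ^ (1 - a) ≤ (80 : ℝ) ^ 3 * δ ^ (3 * (4 * 0 - 3 * (1 - a) - ε)) := by
    rw [Real.mul_rpow (by positivity) (by positivity), ← Real.rpow_mul hδ.le]
    refine mul_le_mul ?_ ?_ (by positivity) (by positivity)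
    · calc ((80 : ℝ) ^ 3) ^ (1 - a) ≤ ((80 : ℝ) ^ 3) ^ (1 : ℝ) :=
          Real.rpow_le_rpow_of_exponent_le (by norm_num) (by linarith)
        _ = (80 : ℝ) ^ 3 := Real.rpow_one _
    · exact Real.rpow_le_rpow_of_exponent_ge hδ hδ1.le (by linarith)
  calc N = N ^ a * N ^ (1 - a) := h1
    _ ≤ N ^ a * ((80 : ℝ) ^ 3 * δ ^ (3 * (4 * 0 - 3 * (1 - a) - ε))) :=
        mul_le_mul_of_nonneg_left (h2.trans h3) (by positivity)
    _ = (80 : ℝ) ^ 3 * δ ^ (3 * (4 * 0 - 3 * (1 - a) - ε)) * N ^ a := by ring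

/-- Main theorem.
PROOF. `q = ⊤`: `main_top`. `q < ⊤`: `main_small` for `ε' = min ε 1` gives `δ₀, C₁`; for `δ₀ ≤ δ < 1` use `eLpNorm_eq`, `triv_norm` (`r = q/3 ≥ 4/9`), `prod_card_le` and `alg_triv`
(`E = 3(beta - ε) ≤ 9`, as `4/q ≤ 3`); `C = max`. Passing from `ε'` to `ε`: `δ^(3(beta - ε')) ≤ δ^(3(beta - ε))`. If some `ι j` is empty: `eLpNorm_empty`. Monotonicity of `RHS` in `C`. -/
theorem main (c A ε : ℝ) (p q : ℝ≥0∞) (hc : 0 < c) (hA : 1 ≤ A) (hε : 0 < ε) (hp : 1 ≤ p)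
    (hq : 4 / 3 ≤ q) (hpq : 1 / p + 3 / q ≤ 3) :
    ∃ C : ℝ, 0 < C ∧ ∀ (δ : ℝ), 0 < δ → δ < 1 → ∀ (ω : E4), ‖ω‖ = 1 →
      ∀ (ι : Fin 3 → Type) [∀ j, Fintype (ι j)] (T : ∀ j, ι j → Tube δ) (m : Fin 3 → ℕ),
        (∀ j, Separated (T j)) → Transversal c ω T → (∀ j, InPlanes A ω (m j) (T j)) →
        eLpNorm (fun x => F (T 0) x * F (T 1) x * F (T 2) x) (q / 3) volume ≤
          ENNReal.ofReal (RHS C δ ε p q (∏ j, (Fintype.card (ι j) : ℝ)) (∏ j, (m j : ℝ))) := by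
  classical
  have hempty : ∀ (C δ : ℝ) (ι : Fin 3 → Type) [∀ j, Fintype (ι j)] (T : ∀ j, ι j → Tube δ) (m : Fin 3 → ℕ),
      (¬ ∀ j, Nonempty (ι j)) → eLpNorm (fun x => F (T 0) x * F (T 1) x * F (T 2) x) (q / 3) volume ≤
          ENNReal.ofReal (RHS C δ ε p q (∏ j, (Fintype.card (ι j) : ℝ)) (∏ j, (m j : ℝ))) := by
    intro C δ ι _ T m h
    push Not at h
    obtain ⟨j, hj⟩ := h
    rw [eLpNorm_empty T q j hj]
    exact bot_le
  by_cases hqt : q = ⊤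
  · subst hqt
    obtain ⟨C, hC, h⟩ := main_top c A ε p hε hp
    refine ⟨C, hC, ?_⟩
    intro δ hδ hδ1 ω hω ι _ T m hsep htr hpl
    by_cases hne : ∀ j, Nonempty (ι j)
    · exact h δ hδ hδ1 ι T m hsep
    · exact hempty C δ ι T m hne
  · obtain ⟨ha0, ha1⟩ := MN_a hp
    have hr := MN_q hq hqt
    have hiq := MN_iq q
    have hq0 : q ≠ 0 := by
      rintro rfl
      norm_num at hr
    have hε' : 0 < min ε 1 := lt_min hε one_pos
    obtain ⟨δ₀, hδ₀, C₁, hC₁, h⟩ := main_small c A (min ε 1) p q hc hA hε' (min_le_right _ _) hp hq hqt hpq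
    set C₂ : ℝ := ((80 : ℝ) ^ 3 * δ₀ ^ (-9 : ℝ)) ^ (9 / 4 : ℝ) * δ₀ ^ (-9 : ℝ) with hC₂
    refine ⟨max C₁ C₂, lt_max_of_lt_left hC₁, ?_⟩
    intro δ hδ hδ1 ω hω ι _ T m hsep htr hpl
    by_cases hne : ∀ j, Nonempty (ι j)
    swap
    · exact hempty _ δ ι T m hne
    have hN : (1 : ℝ) ≤ ∏ j, (Fintype.card (ι j) : ℝ) := MN_one_le fun j => Fintype.card_pos
    have hN0 : (0 : ℝ) ≤ ∏ j, (Fintype.card (ι j) : ℝ) := by linarith
    have hmax : (0 : ℝ) ≤ max 1 (δ ^ 6 * ∏ j, (m j : ℝ)) := le_trans zero_le_one (le_max_left _ _)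
    by_cases hle : δ ≤ δ₀
    · refine (h δ hδ hle hδ1 ω hω ι T m hsep htr hpl).trans (ENNReal.ofReal_le_ofReal ?_)
      unfold RHS
      refine mul_le_mul_of_nonneg_right (mul_le_mul_of_nonneg_right (mul_le_mul (le_max_left _ _) ?_
        (by positivity) (le_trans hC₁.le (le_max_left _ _))) (by positivity)) (by positivity)
      refine Real.rpow_le_rpow_of_exponent_ge hδ hδ1.le ?_
      have := min_le_left ε 1
      linarith
    · push Not at hle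
      rw [eLpNorm_eq T q hq0 hqt]
      refine (triv_norm hδ hδ1 T hr).trans (ENNReal.ofReal_le_ofReal ?_)
      have hE : 3 * (beta p q - ε) ≤ 9 := by
        unfold beta
        have h1 : 1 / (q.toReal / 3) ≤ 9 / 4 := by
          rw [div_le_iff₀ (by linarith)]
          linarith
        rw [hiq]
        linarith
      have h2 := alg_triv (M := δ ^ 6 * ∏ j, (m j : ℝ)) hδ₀ hle.le hδ1 hN ha0 hE (P := (80 : ℝ) ^ 3) (by norm_num)
        (prod_card_le hδ hδ1 T hsep) (le_max_left 0 (3 * (1 / q).toReal - 2))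
      refine h2.trans ?_
      unfold RHS
      rw [← hC₂]
      exact mul_le_mul_of_nonneg_right (mul_le_mul_of_nonneg_right (mul_le_mul_of_nonneg_right
        (le_max_right _ _) (by positivity)) (by positivity)) (by positivity)

/-- Second clause: at most `K δ^(-2)` planes for each family: exactly the estimate of Q1.
PROOF. `δ^6 ∏ m j ≤ K^3`, so the last factor of `RHS` is at most `(max 1 (K^3))^(max 0 (3/q - 2))`, a constant. -/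
theorem main_K (c A K ε : ℝ) (p q : ℝ≥0∞) (hc : 0 < c) (hA : 1 ≤ A) (hε : 0 < ε) (hp : 1 ≤ p)
    (hq : 4 / 3 ≤ q) (hpq : 1 / p + 3 / q ≤ 3) :
    ∃ C : ℝ, 0 < C ∧ ∀ (δ : ℝ), 0 < δ → δ < 1 → ∀ (ω : E4), ‖ω‖ = 1 →
      ∀ (ι : Fin 3 → Type) [∀ j, Fintype (ι j)] (T : ∀ j, ι j → Tube δ) (m : Fin 3 → ℕ),
        (∀ j, Separated (T j)) → Transversal c ω T → (∀ j, InPlanes A ω (m j) (T j)) →
        (∀ j, (m j : ℝ) ≤ K * δ ^ (-2 : ℝ)) →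
        eLpNorm (fun x => F (T 0) x * F (T 1) x * F (T 2) x) (q / 3) volume ≤
          ENNReal.ofReal (C * δ ^ (3 * (beta p q - ε)) * (∏ j, (Fintype.card (ι j) : ℝ)) ^ (1 / p).toReal) := by
  obtain ⟨C, hC, h⟩ := main c A ε p q hc hA hε hp hq hpq
  have hK1 : (0 : ℝ) < max 1 (K ^ 3) := lt_of_lt_of_le one_pos (le_max_left _ _)
  refine ⟨C * (max 1 (K ^ 3)) ^ (max 0 (3 * (1 / q).toReal - 2)), by positivity, ?_⟩
  intro δ hδ hδ1 ω hω ι _ T m hsep htr hpl hm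
  refine (h δ hδ hδ1 ω hω ι T m hsep htr hpl).trans (ENNReal.ofReal_le_ofReal ?_)
  have hN0 : (0 : ℝ) ≤ ∏ j, (Fintype.card (ι j) : ℝ) := Finset.prod_nonneg fun j _ => Nat.cast_nonneg _
  have h1 : ∏ j, (m j : ℝ) ≤ ∏ _j : Fin 3, (K * δ ^ (-2 : ℝ)) :=
    Finset.prod_le_prod (fun j _ => Nat.cast_nonneg _) (fun j _ => hm j)
  rw [Finset.prod_const, Finset.card_univ, Fintype.card_fin] at h1
  have h2 : δ ^ 6 * ∏ j, (m j : ℝ) ≤ K ^ 3 := by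
    calc δ ^ 6 * ∏ j, (m j : ℝ) ≤ δ ^ 6 * (K * δ ^ (-2 : ℝ)) ^ 3 := mul_le_mul_of_nonneg_left h1 (by positivity)
      _ = K ^ 3 := by
        have h3 : δ ^ (-2 : ℝ) = (δ ^ 2)⁻¹ := by
          rw [Real.rpow_neg hδ.le, show (2 : ℝ) = ((2 : ℕ) : ℝ) by norm_num, Real.rpow_natCast]
        rw [h3]
        have h4 : δ ≠ 0 := hδ.ne'
        field_simp
  have h5 : (max 1 (δ ^ 6 * ∏ j, (m j : ℝ))) ^ (max 0 (3 * (1 / q).toReal - 2)) ≤
      (max 1 (K ^ 3)) ^ (max 0 (3 * (1 / q).toReal - 2)) := by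
    refine Real.rpow_le_rpow (le_trans zero_le_one (le_max_left _ _)) ?_ (le_max_left _ _)
    exact max_le_max le_rfl h2
  unfold RHS
  calc C * δ ^ (3 * (beta p q - ε)) * (∏ j, (Fintype.card (ι j) : ℝ)) ^ (1 / p).toReal *
        (max 1 (δ ^ 6 * ∏ j, (m j : ℝ))) ^ (max 0 (3 * (1 / q).toReal - 2))
      ≤ C * δ ^ (3 * (beta p q - ε)) * (∏ j, (Fintype.card (ι j) : ℝ)) ^ (1 / p).toReal *
        (max 1 (K ^ 3)) ^ (max 0 (3 * (1 / q).toReal - 2)) := mul_le_mul_of_nonneg_left h5 (by positivity)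
    _ = C * (max 1 (K ^ 3)) ^ (max 0 (3 * (1 / q).toReal - 2)) * δ ^ (3 * (beta p q - ε)) *
        (∏ j, (Fintype.card (ι j) : ℝ)) ^ (1 / p).toReal := by ring

end Pool.Agent.Lib.MP_291c47_an.TK
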